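import Pool.Agent.Helper18.Dub.GWDefs

/-!
# Monodromy data of quantum cohomology and the Euler form

All definitions (besides those of the file `GWDefs`) used in the statement. The first structure
connection at a fixed point `t` is written on the universal cover `w = log z` of `ℂ \ {0}`.
Matrices act on the coordinates with respect to the homogeneous basis `φ_i`, `i : ι`.
-/

open scoped BigOperators Topology
open Finset MvPowerSeries Filter Asymptotics

namespace Pool.Agent.Helper7.DubStokes

open Pool.Agent.Helper18.Dub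

section classical

variable {ι : Type} [Fintype ι] [DecidableEq ι] (X : FanoGW ι)

/-- The Euler form on cohomology attached to a class `T = ∑ T_c φ_c`:
`χ(v, w) = ∫_X v^∨ ∪ w ∪ T`, where `v^∨ = (-1)^p v` for `v ∈ H^{2p}`. By Hirzebruch–Riemann–Roch
`χ(E, F) = χ(ch E, ch F)` for the Todd class `T`. -/
noncomputable def eulerForm (T v w : ι → ℂ) : ℂ :=
  ∑ a, ∑ b, ∑ c, (-1) ^ X.deg a * v a * w b * T c * X.inv X.zero {a, b, c}

/-- The identity `T^∨ = exp(-c_1(X)) ∪ T`, satisfied by the Todd class of `X`. -/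
def IsToddLike (T : ι → ℂ) : Prop :=
  (fun c => (-1) ^ X.deg c * T c) = (NormedSpace.exp (-X.cupMat)).mulVec T

/-- The operator `(2πi)^deg`, so that `Ch(E) = ∑_k (2πi)^k ch_k(E)` is `twist (ch E)`. -/
noncomputable def twist : Matrix ι ι ℂ :=
  Matrix.diagonal fun a => (2 * Real.pi * Complex.I) ^ X.deg a

end classical

section quantum

variable {ι : Type} [Fintype ι] [DecidableEq ι] (X : FanoGW ι)

/-- The `m`-th term of the series `⟨⟨φ_{i_1}, …, φ_{i_n}⟩⟩(t)`. -/
noncomputable def term (t : ι → ℂ) (s : Multiset ι) (m : ι →₀ ℕ) : ℂ :=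
  coeff m (X.ser s) * ∏ i, t i ^ m i

/-- The potential of quantum cohomology (its third derivatives) converges at the point `t`. -/
def ConvergesAt (t : ι → ℂ) : Prop := ∀ a b c, Summable (term X t {a, b, c})

/-- The matrix of multiplication by the Euler field `E = c_1(X) + ∑_a (1 - deg φ_a) t_a ∂_a` in the
quantum cohomology algebra at the point `t`. -/
noncomputable def eulerMat (t : ι → ℂ) : Matrix ι ι ℂ := Matrix.of fun k b =>
  ∑ a, (X.chern a + (1 - X.deg a) * t a) * ∑ l, X.pair⁻¹ k l * ∑' m, term X t {a, b, l} m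

/-- The grading operator `θ(φ_a) = (D/2 - deg φ_a) φ_a`. -/
noncomputable def theta : Matrix ι ι ℂ := Matrix.diagonal fun a => (X.dim : ℂ) / 2 - X.deg a

/-- The columns of `Y` are solutions of `z ∂_z J + E J = θ J` at the point `t`, that is, of
`dJ/dw = (θ - e^{-w} E•) J`, on the universal cover `w = log z`. -/
def IsSolution (t : ι → ℂ) (Y : ℂ → Matrix ι ι ℂ) : Prop :=
  ∀ w i j, HasDerivAt (fun w => Y w i j)
    (((theta X - Complex.exp (-w) • eulerMat X t) * Y w) i j) w

/-- The solution `𝒮(t,z) z^θ z^{-ρ}` attached to a single-valued function `𝒮` of `z`. -/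
noncomputable def zSol (𝒮 : ℂ → Matrix ι ι ℂ) (w : ℂ) : Matrix ι ι ℂ :=
  𝒮 (Complex.exp w) * NormedSpace.exp (w • theta X) * NormedSpace.exp (-w • X.cupMat)

/-- `Y e^{-U/z}` tends to `Ψ` as `z → 0` radially, in every direction `arg z ∈ (α, β)`: the
leading term of the asymptotics `Y ~ Ψ R e^{U/z}`, `R = 1 + O(z)`. -/
def HasAsymptotics (u : ι → ℂ) (Ψ : Matrix ι ι ℂ) (α β : ℝ) (Y : ℂ → Matrix ι ι ℂ) : Prop :=
  ∀ φ ∈ Set.Ioo α β, Tendsto (fun s : ℝ => Y (s + φ * Complex.I) *
    Matrix.diagonal fun j => Complex.exp (-u j * Complex.exp (-(s + φ * Complex.I))))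
    atBot (𝓝 Ψ)

end quantum

/-- Monodromy data of quantum cohomology at a point `t` with pairwise distinct canonical
coordinates `u_1, …, u_N`. -/
structure MonodromyData {N : ℕ} (X : FanoGW (Fin N)) (t : Fin N → ℂ) where
  converges : ConvergesAt X t
  /-- the canonical coordinates, that is, the eigenvalues of `E•` -/
  u : Fin N → ℂ
  /-- the columns of `Ψ` are the normalised idempotents -/
  Ψ : Matrix (Fin N) (Fin N) ℂ
  eigen : eulerMat X t * Ψ = Ψ * Matrix.diagonal u
  normalised : Ψ.transpose * X.pair * Ψ = 1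
  /-- the oriented line `ℓ` is `ℝ e^{iφ}` -/
  φ : ℝ
  /-- `ℓ` contains no ray `i (u_i - u_j) ℝ_{>0}`, and the canonical coordinates are ordered
  lexicographically -/
  ordered : ∀ i j, i < j →
    (u i * Complex.exp (-φ * Complex.I)).re < (u j * Complex.exp (-φ * Complex.I)).re
  /-- the opening of the sectors exceeds `π` -/
  ε : ℝ
  ε_pos : 0 < ε
  /-- the solution `X_+` with prescribed asymptotics to the right of `ℓ` -/
  Xplus : ℂ → Matrix (Fin N) (Fin N) ℂ
  plus_solution : IsSolution X t Xplus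
  plus_asymptotics : HasAsymptotics u Ψ (φ - Real.pi - ε) (φ + ε) Xplus
  /-- the solution `X_-` with prescribed asymptotics to the left of `ℓ` -/
  Xminus : ℂ → Matrix (Fin N) (Fin N) ℂ
  minus_solution : IsSolution X t Xminus
  minus_asymptotics : HasAsymptotics u Ψ (φ - ε) (φ + Real.pi + ε) Xminus
  /-- the calibration -/
  𝒮 : ℂ → Matrix (Fin N) (Fin N) ℂ
  calibration_limit : Tendsto 𝒮 (Bornology.cobounded ℂ) (𝓝 1)
  calibration_solution : IsSolution X t (zSol X 𝒮)
  /-- the Stokes matrix -/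
  S : Matrix (Fin N) (Fin N) ℂ
  stokes : ∀ w, Xminus w = Xplus w * S
  /-- the central connection matrix -/
  C : Matrix (Fin N) (Fin N) ℂ
  central : ∀ w, Xminus w = zSol X 𝒮 w * C

section statements

variable {N : ℕ} {X : FanoGW (Fin N)} {t : Fin N → ℂ}

/-- The classes `v_1, …, v_N` are numerically exceptional: `χ(v_i, v_i) = 1` and `χ(v_i, v_j) = 0`
for `i > j`. The Chern characters of an exceptional collection of length `N` are. -/
structure IsExceptional (X : FanoGW (Fin N)) (T : Fin N → ℂ) (v : Fin N → Fin N → ℂ) : Prop where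
  self : ∀ i, eulerForm X T (v i) (v i) = 1
  zero : ∀ i j, j < i → eulerForm X T (v i) (v j) = 0

/-- The Gram matrix `χ(v_i, v_j)`. -/
noncomputable def gramMatrix (X : FanoGW (Fin N)) (T : Fin N → ℂ) (v : Fin N → Fin N → ℂ) :
    Matrix (Fin N) (Fin N) ℂ := Matrix.of fun i j => eulerForm X T (v i) (v j)

/-- Condition (b) for the vectors `w_1, …, w_N`: `C = C' C''`, where the `j`-th column of `C''` is
`w_j` and `C'` is a linear operator on cohomology which commutes with `c_1(X) ∪`. -/
def ConnectionFactors (M : MonodromyData X t) (w : Fin N → Fin N → ℂ) : Prop :=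
  ∃ C' : Matrix (Fin N) (Fin N) ℂ, (∀ a j, M.C a j = C'.mulVec (w j) a) ∧
    C' * X.cupMat = X.cupMat * C'

/-- The pairing `[a, b) = (Z(e^{πi} z) a, Z(z) b)` of the solutions `Z a` and `Z b`, with
`Z = 𝒮 z^θ z^{-ρ}`; it does not depend on `w = log z`. -/
noncomputable def flatPairing (M : MonodromyData X t) (w : ℂ) (a b : Fin N → ℂ) : ℂ :=
  dotProduct ((zSol X M.𝒮 (w + Real.pi * Complex.I)).mulVec a)
    (X.pair.mulVec ((zSol X M.𝒮 w).mulVec b))

/-- The operator `A` on cohomology is isometric from the Euler form to the pairing `[a, b)`. -/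
def IsIsometric (M : MonodromyData X t) (T : Fin N → ℂ) (A : Matrix (Fin N) (Fin N) ℂ) : Prop :=
  ∀ w x y, flatPairing M w (A.mulVec x) (A.mulVec y) = eulerForm X T x y

/-- The isometric form of condition (b): `C = C' C''`, where the `j`-th column of `C''` is
`Ch_j = (2πi)^deg v_j` and the operator `C' ∘ (2πi)^deg` is isometric. -/
def ConnectionIsometric (M : MonodromyData X t) (T : Fin N → ℂ) (v : Fin N → Fin N → ℂ) : Prop :=
  ∃ C' : Matrix (Fin N) (Fin N) ℂ, (∀ a j, M.C a j = C'.mulVec ((twist X).mulVec (v j)) a) ∧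
    IsIsometric M T (C' * twist X)

/-- The solution `Z(z) a` is `O(|z|^{-m} |e^{u/z}|)` for some `m`, as `z → 0` along the single ray
`arg z = φ` (half of the line `ℓ`). -/
def GrowthAtMost (M : MonodromyData X t) (a : Fin N → ℂ) (u : ℂ) : Prop :=
  ∃ m : ℕ, ∀ i, (fun s : ℝ => (zSol X M.𝒮 (s + M.φ * Complex.I)).mulVec a i *
    Complex.exp (-u * Complex.exp (-(s + M.φ * Complex.I)))) =O[atBot]
      fun s : ℝ => Real.exp (-(m : ℝ) * s)

end statements

end Pool.Agent.Helper7.DubStokes
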