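import Pool.Agent.Helper7.DubStokes.Main
import Pool.Agent.Helper9.Stokes.Criterion

/-!
# The final statement, with the growth criterion
-/

open scoped BigOperators Topology Nat
open Finset MvPowerSeries Filter

namespace Pool.Agent.Helper7.DubStokes

open Pool.Agent.Helper18.Dub

variable {N : ℕ} {X : FanoGW (Fin N)} {t : Fin N → ℂ}

theorem growth (M : MonodromyData X t) (T : Fin N → ℂ) (v : Fin N → Fin N → ℂ)
    (hv : IsExceptional X T v) :
    (∃ ε : Fin N → ℤˣ, M.S = gramMatrix X T (fun j => (ε j : ℤ) • v j)) ↔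
      ∃ A : Matrix (Fin N) (Fin N) ℂ, IsIsometric M T A ∧
        ∀ j, GrowthAtMost M (A.mulVec (v j)) (M.u j) := by
  have h := Pool.Agent.Helper9.Stokes.growth_criterion M T (colMat v) (gramMatrix X T v)
    (fun i j => rfl) hv.self hv.zero
  have h1 : ∀ ε : Fin N → ℤˣ, M.S = gramMatrix X T (fun j => (ε j : ℤ) • v j) ↔
      ∀ i j, M.S i j = ((ε i : ℤ) : ℂ) * ((ε j : ℤ) : ℂ) * gramMatrix X T v i j := by
    intro ε
    have h2 : ∀ i j, gramMatrix X T (fun j => (ε j : ℤ) • v j) i j =
        ((ε i : ℤ) : ℂ) * ((ε j : ℤ) : ℂ) * gramMatrix X T v i j := by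
      intro i j
      show eulerForm X T _ _ = _ * _ * eulerForm X T _ _
      unfold eulerForm
      simp only [Finset.mul_sum]
      refine Finset.sum_congr rfl fun a _ => Finset.sum_congr rfl fun b _ =>
        Finset.sum_congr rfl fun c _ => ?_
      simp only [Pi.smul_apply, zsmul_eq_mul]
      ring
    constructor
    · intro h3 i j
      rw [← h2, h3]
    · intro h3
      ext i j
      rw [h3, h2]
  simp only [h1]
  refine h.trans (exists_congr fun A => and_congr ?_ Iff.rfl)
  exact ⟨fun h2 w x y => h2 x y w, fun h2 x y w => h2 w x y⟩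

end Pool.Agent.Helper7.DubStokes
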