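import Mathlib

/-!
# Exponentials of nilpotent matrices intertwine
-/

open scoped BigOperators Topology Nat
open Finset
open scoped Polynomial

namespace Pool.Agent.Helper7.DubStokes

variable {ι : Type} [Fintype ι] [DecidableEq ι]

theorem exp_of_pow_eq_zero (A : Matrix ι ι ℂ) (n : ℕ) (h : A ^ n = 0) :
    NormedSpace.exp A = ∑ j ∈ range n, ((j ! : ℂ)⁻¹) • A ^ j := by
  rw [NormedSpace.exp_eq_tsum ℂ]
  refine tsum_eq_sum fun j hj => ?_
  rw [Finset.mem_range, not_lt] at hj
  rw [pow_eq_zero_of_le hj h, smul_zero]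

theorem smul_pow_zero (A : Matrix ι ι ℂ) (n : ℕ) (h : A ^ n = 0) (c : ℂ) : (c • A) ^ n = 0 := by
  rw [smul_pow, h, smul_zero]

/-- `exp(A) M = M exp(B)` implies `A M = M B` for nilpotent matrices `A`, `B`. -/
theorem intertwine_of_exp (A B M : Matrix ι ι ℂ) (n : ℕ) (hA : A ^ n = 0) (hB : B ^ n = 0)
    (h : NormedSpace.exp A * M = M * NormedSpace.exp B) : A * M = M * B := by
  have h1 : ∀ k : ℕ, NormedSpace.exp A ^ k * M = M * NormedSpace.exp B ^ k := by
    intro k
    induction k with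
    | zero => simp
    | succ k ih =>
      rw [pow_succ, Matrix.mul_assoc, h, ← Matrix.mul_assoc, ih, Matrix.mul_assoc, ← pow_succ]
  have hA' : A ^ (n + 2) = 0 := pow_eq_zero_of_le (by omega) hA
  have hB' : B ^ (n + 2) = 0 := pow_eq_zero_of_le (by omega) hB
  have h2 : ∀ k : ℕ, ∑ j ∈ range (n + 2), ((j ! : ℂ)⁻¹ * (k : ℂ) ^ j) • (A ^ j * M - M * B ^ j)
      = 0 := by
    intro k
    have h3 := h1 k
    rw [← Matrix.exp_nsmul, ← Matrix.exp_nsmul, ← Nat.cast_smul_eq_nsmul ℂ,
      ← Nat.cast_smul_eq_nsmul ℂ, exp_of_pow_eq_zero _ (n + 2) (smul_pow_zero A _ hA' _),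
      exp_of_pow_eq_zero _ (n + 2) (smul_pow_zero B _ hB' _)] at h3
    rw [Finset.sum_mul, Finset.mul_sum, ← sub_eq_zero, ← Finset.sum_sub_distrib] at h3
    rw [← h3]
    refine Finset.sum_congr rfl fun j _ => ?_
    rw [smul_pow, smul_pow, smul_sub, Matrix.smul_mul, Matrix.smul_mul, Matrix.mul_smul,
      Matrix.mul_smul, mul_smul, mul_smul]
  ext p q
  have h4 : (∑ j ∈ range (n + 2), Polynomial.C ((j ! : ℂ)⁻¹ * (A ^ j * M - M * B ^ j) p q) *
      Polynomial.X ^ j : ℂ[X]) = 0 := by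
    refine Polynomial.eq_zero_of_infinite_isRoot _ ?_
    refine Set.Infinite.mono ?_ (Set.infinite_range_of_injective (Nat.cast_injective (R := ℂ)))
    rintro _ ⟨k, rfl⟩
    show Polynomial.IsRoot _ _
    rw [Polynomial.IsRoot.def, Polynomial.eval_finsetSum]
    have h5 := congrFun (congrFun (h2 k) p) q
    rw [Matrix.sum_apply, Matrix.zero_apply] at h5
    rw [← h5]
    refine Finset.sum_congr rfl fun j _ => ?_
    rw [Polynomial.eval_mul, Polynomial.eval_C, Polynomial.eval_pow, Polynomial.eval_X,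
      Matrix.smul_apply, smul_eq_mul]
    ring
  have h6 := congrArg (fun P : ℂ[X] => P.coeff 1) h4
  simp only [Polynomial.finsetSum_coeff, Polynomial.coeff_C_mul, Polynomial.coeff_X_pow,
    Polynomial.coeff_zero] at h6
  rw [Finset.sum_eq_single 1] at h6
  · simp only [Nat.factorial_one, Nat.cast_one, inv_one, one_mul, if_true, mul_one, pow_one] at h6
    rw [Matrix.sub_apply, sub_eq_zero] at h6
    exact h6
  · intro j _ hj
    rw [if_neg (Ne.symm hj), mul_zero]
  · intro h7
    exact absurd (Finset.mem_range.2 (by omega)) h7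

end Pool.Agent.Helper7.DubStokes
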