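import Pool.Agent.Helper7.DubStokes.Alg
import Pool.Agent.Helper7.DubStokes.Defs
import Pool.Agent.Helper18.Dub.Minimal

/-!
# The classical cup product and the Euler form
-/

open scoped BigOperators Topology Nat
open Finset MvPowerSeries Filter

namespace Pool.Agent.Helper7.DubStokes

open Pool.Agent.Helper18.Dub

variable {ι : Type} [Fintype ι] [DecidableEq ι] (X : FanoGW ι)

/-- classical triple intersection numbers -/
noncomputable def tri (a b c : ι) : ℂ := X.inv X.zero {a, b, c}

theorem tri_swap12 (a b c : ι) : tri X a b c = tri X b a c := by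
  unfold tri
  congr 1
  exact Multiset.cons_swap a b _

theorem tri_swap23 (a b c : ι) : tri X a b c = tri X a c b := by
  unfold tri
  congr 1
  show a ::ₘ (b ::ₘ c ::ₘ 0) = a ::ₘ (c ::ₘ b ::ₘ 0)
  rw [Multiset.cons_swap b c]

theorem tri_deg (a b c : ι) (h : tri X a b c ≠ 0) : X.deg a + X.deg b + X.deg c = X.dim := by
  have h4 := X.dimension X.zero _ h
  have h6 : (({a, b, c} : Multiset ι).map X.deg).sum = X.deg a + (X.deg b + X.deg c) := by
    simp [Multiset.insert_eq_cons]
  have h7 : Multiset.card ({a, b, c} : Multiset ι) = 3 := rfl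
  rw [h6, h7, (X.c1_eq_zero X.zero).2 rfl] at h4
  omega

theorem corr_deg (a b c : ι) (h : X.corr {a, b, c} ≠ 0) :
    X.dim ≤ X.deg a + X.deg b + X.deg c := by
  by_contra hlt
  apply h
  rw [GWData.corr]
  rw [finsum_congr (g := fun _ => (0 : ℂ)), finsum_zero]
  intro β
  by_contra hne
  have h4 := X.dimension β _ hne
  have h6 : (({a, b, c} : Multiset ι).map X.deg).sum = X.deg a + (X.deg b + X.deg c) := by
    simp [Multiset.insert_eq_cons]
  have h7 : Multiset.card ({a, b, c} : Multiset ι) = 3 := rfl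
  rw [h6, h7] at h4
  omega

theorem corr_eq_tri (a b c : ι) (h : X.deg a + X.deg b + X.deg c = X.dim) :
    X.corr {a, b, c} = tri X a b c := by
  rw [GWData.corr, finsum_eq_single _ X.zero]
  · rfl
  intro β hβ
  by_contra hne
  have h4 := X.dimension β _ hne
  have h6 : (({a, b, c} : Multiset ι).map X.deg).sum = X.deg a + (X.deg b + X.deg c) := by
    simp [Multiset.insert_eq_cons]
  have h7 : Multiset.card ({a, b, c} : Multiset ι) = 3 := rfl
  rw [h6, h7] at h4
  have h2 : X.c1 β = 0 := by omega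
  exact hβ ((X.c1_eq_zero β).1 h2)

theorem wdvv_term (a b c d e f : ι) (h : X.deg a + X.deg b + X.deg c + X.deg d = X.dim) :
    X.pair⁻¹ e f * X.corr {a, b, e} * X.corr {f, c, d} =
      X.pair⁻¹ e f * tri X a b e * tri X f c d := by
  by_cases h1 : X.pair⁻¹ e f = 0
  · rw [h1]; ring
  have h2 := X.pairInv_deg e f h1
  by_cases h3 : X.deg a + X.deg b + X.deg e = X.dim
  · rw [corr_eq_tri X a b e h3, corr_eq_tri X f c d (by omega)]
  · have h4 : X.corr {a, b, e} * X.corr {f, c, d} = 0 := by
      by_contra hne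
      have h5 := corr_deg X a b e (left_ne_zero_of_mul hne)
      have h6 := corr_deg X f c d (right_ne_zero_of_mul hne)
      omega
    have h7 : tri X a b e = 0 := by
      by_contra hne
      exact h3 (tri_deg X a b e hne)
    rw [mul_assoc, h4, h7]; ring

theorem wdvv_term_zero (a b c d e f : ι) (h : X.deg a + X.deg b + X.deg c + X.deg d ≠ X.dim) :
    X.pair⁻¹ e f * tri X a b e * tri X f c d = 0 := by
  by_contra hne
  have h2 := X.pairInv_deg e f (left_ne_zero_of_mul (left_ne_zero_of_mul hne))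
  have h3 := tri_deg X a b e (right_ne_zero_of_mul (left_ne_zero_of_mul hne))
  have h4 := tri_deg X f c d (right_ne_zero_of_mul hne)
  omega

/-- The classical associativity relations. -/
theorem tri_wdvv (a b c d : ι) :
    ∑ e, ∑ f, X.pair⁻¹ e f * tri X a b e * tri X f c d =
      ∑ e, ∑ f, X.pair⁻¹ e f * tri X b c e * tri X f a d := by
  by_cases h : X.deg a + X.deg b + X.deg c + X.deg d = X.dim
  · have h1 := congrArg (MvPowerSeries.constantCoeff (σ := ι) (R := ℂ)) (X.wdvv a b c d)
    have h0 : ∀ s : Multiset ι, MvPowerSeries.constantCoeff (σ := ι) (R := ℂ) (X.ser s) =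
        X.corr s := by
      intro s
      rw [← MvPowerSeries.coeff_zero_eq_constantCoeff_apply, X.coeff_ser]
      simp
    simp only [map_sum, map_mul, h0, MvPowerSeries.constantCoeff_C] at h1
    have h2 : ∀ e f, X.pair⁻¹ e f * tri X a b e * tri X f c d =
        X.pair⁻¹ e f * X.corr {a, b, e} * X.corr {f, c, d} := fun e f =>
      (wdvv_term X a b c d e f h).symm
    have h3 : ∀ e f, X.pair⁻¹ e f * tri X b c e * tri X f a d =
        X.pair⁻¹ e f * X.corr {b, c, e} * X.corr {f, a, d} := fun e f =>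
      (wdvv_term X b c a d e f (by omega)).symm
    simp only [h2, h3]
    exact h1
  · rw [Finset.sum_eq_zero fun e _ => Finset.sum_eq_zero fun f _ => wdvv_term_zero X a b c d e f h,
      Finset.sum_eq_zero fun e _ => Finset.sum_eq_zero fun f _ =>
        wdvv_term_zero X b c a d e f (by omega)]

/-- matrix of triple intersection numbers with the class `v` -/
noncomputable def triMat (v : ι → ℂ) : Matrix ι ι ℂ := Matrix.of fun a b =>
  ∑ c, v c * tri X a b c

/-- matrix of the cup product with the class `v` -/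
noncomputable def mulCl (v : ι → ℂ) : Matrix ι ι ℂ := X.pair⁻¹ * triMat X v

theorem triMat_transpose (v : ι → ℂ) : (triMat X v).transpose = triMat X v := by
  ext a b
  simp only [Matrix.transpose_apply, triMat, Matrix.of_apply]
  refine Finset.sum_congr rfl fun c _ => ?_
  rw [tri_swap12]

theorem pair_mulCl (v : ι → ℂ) : X.pair * mulCl X v = triMat X v := by
  rw [mulCl, ← Matrix.mul_assoc, X.pair_mul_inv, Matrix.one_mul]

theorem cupMat_eq : X.cupMat = mulCl X X.chern := by
  ext k b
  rw [X.cupMat_apply, mulCl, Matrix.mul_apply]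
  simp only [triMat, Matrix.of_apply, Finset.mul_sum]
  rw [Finset.sum_comm]
  refine Finset.sum_congr rfl fun l _ => Finset.sum_congr rfl fun a _ => ?_
  have : X.inv X.zero {a, b, l} = tri X l b a := by
    rw [show tri X l b a = tri X a b l by
      rw [tri_swap12 X l b a, tri_swap23 X b l a, tri_swap12 X b a l]]
    rfl
  rw [this]; ring

omit [DecidableEq ι] in
theorem sum3_rot (G : ι → ι → ι → ℂ) :
    ∑ q, ∑ e, ∑ p, G q e p = ∑ p, ∑ q, ∑ e, G q e p :=
  (Finset.sum_congr rfl fun _ _ => Finset.sum_comm).trans Finset.sum_comm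

omit [DecidableEq ι] in
theorem sum4_swap (F : ι → ι → ι → ι → ℂ) :
    ∑ f, ∑ q, ∑ e, ∑ p, F f q e p = ∑ p, ∑ q, ∑ e, ∑ f, F f q e p := by
  calc ∑ f, ∑ q, ∑ e, ∑ p, F f q e p = ∑ f, ∑ p, ∑ q, ∑ e, F f q e p :=
        Finset.sum_congr rfl fun f _ => sum3_rot fun q e p => F f q e p
    _ = ∑ p, ∑ f, ∑ q, ∑ e, F f q e p := Finset.sum_comm
    _ = ∑ p, ∑ q, ∑ e, ∑ f, F f q e p :=
        Finset.sum_congr rfl fun p _ => (sum3_rot fun q e f => F f q e p).symm

/-- Associativity: the intersection form with the class `v ∪ w`. -/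
theorem assoc_tri (v : ι → ℂ) (w : ι → ℂ) :
    triMat X ((mulCl X v).mulVec w) = triMat X v * X.pair⁻¹ * triMat X w := by
  ext a b
  have hL : triMat X ((mulCl X v).mulVec w) a b =
      ∑ p, ∑ q, ∑ e, ∑ f, v p * w q * (X.pair⁻¹ e f * tri X p q e * tri X f a b) := by
    simp only [triMat, mulCl, Matrix.of_apply, Matrix.mulVec, dotProduct, Matrix.mul_apply,
      Finset.mul_sum, Finset.sum_mul]
    rw [sum4_swap]
    refine Finset.sum_congr rfl fun p _ => Finset.sum_congr rfl fun q _ =>
      Finset.sum_congr rfl fun e _ => Finset.sum_congr rfl fun f _ => ?_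
    rw [X.pairInv_symm f e, show tri X e q p = tri X p q e by
      rw [tri_swap12 X e q p, tri_swap23 X q e p, tri_swap12 X q p e],
      show tri X a b f = tri X f a b by rw [tri_swap23 X a b f, tri_swap12 X a f b]]
    ring
  have hR : (triMat X v * X.pair⁻¹ * triMat X w) a b =
      ∑ p, ∑ q, ∑ e, ∑ f, v p * w q * (X.pair⁻¹ e f * tri X a p e * tri X f q b) := by
    simp only [triMat, Matrix.of_apply, Matrix.mul_apply, Finset.mul_sum, Finset.sum_mul]
    -- order of summation: f, q, e, p
    rw [sum4_swap]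
    refine Finset.sum_congr rfl fun p _ => Finset.sum_congr rfl fun q _ =>
      Finset.sum_congr rfl fun e _ => Finset.sum_congr rfl fun f _ => ?_
    rw [show tri X a e p = tri X a p e by rw [tri_swap23], show tri X f b q = tri X f q b by
      rw [tri_swap23]]
    ring
  rw [hL, hR]
  refine Finset.sum_congr rfl fun p _ => Finset.sum_congr rfl fun q _ => ?_
  simp only [← Finset.mul_sum]
  rw [tri_wdvv X a p q b]

theorem mulCl_mulVec (v w : ι → ℂ) :
    mulCl X ((mulCl X v).mulVec w) = mulCl X v * mulCl X w := by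
  rw [mulCl, assoc_tri, mulCl, mulCl]
  simp only [Matrix.mul_assoc]

theorem mulCl_mulVec_comm (v w : ι → ℂ) : (mulCl X v).mulVec w = (mulCl X w).mulVec v := by
  ext k
  have h : ∀ v w : ι → ℂ, (mulCl X v).mulVec w k =
      ∑ e, ∑ q, ∑ p, X.pair⁻¹ k e * tri X e q p * w q * v p := by
    intro v w
    simp only [triMat, mulCl, Matrix.of_apply, Matrix.mulVec, dotProduct, Matrix.mul_apply,
      Finset.mul_sum, Finset.sum_mul]
    rw [Finset.sum_comm]
    refine Finset.sum_congr rfl fun e _ => Finset.sum_congr rfl fun q _ =>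
      Finset.sum_congr rfl fun p _ => ?_
    ring
  rw [h v w, h w v]
  refine Finset.sum_congr rfl fun e _ => ?_
  rw [Finset.sum_comm]
  refine Finset.sum_congr rfl fun p _ => Finset.sum_congr rfl fun q _ => ?_
  rw [tri_swap23 X e q p]
  ring

theorem mulCl_comm (v w : ι → ℂ) : mulCl X v * mulCl X w = mulCl X w * mulCl X v := by
  rw [← mulCl_mulVec, ← mulCl_mulVec, mulCl_mulVec_comm]

theorem triMat_add (v w : ι → ℂ) : triMat X (v + w) = triMat X v + triMat X w := by
  ext a b
  simp only [triMat, Matrix.of_apply, Matrix.add_apply, Pi.add_apply, add_mul,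
    Finset.sum_add_distrib]

theorem triMat_smul (c : ℂ) (v : ι → ℂ) : triMat X (c • v) = c • triMat X v := by
  ext a b
  simp only [triMat, Matrix.of_apply, Matrix.smul_apply, Pi.smul_apply, smul_eq_mul, mul_assoc,
    Finset.mul_sum]

/-- the linear map `v ↦ (v ∪)` -/
noncomputable def mulClHom : (ι → ℂ) →ₗ[ℂ] Matrix ι ι ℂ where
  toFun := mulCl X
  map_add' v w := by rw [mulCl, triMat_add, Matrix.mul_add]; rfl
  map_smul' c v := by rw [mulCl, triMat_smul, Matrix.mul_smul]; rfl

theorem mulCl_pow_mulVec (v : ι → ℂ) (j : ℕ) :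
    mulCl X ((X.cupMat ^ j).mulVec v) = mulCl X v * X.cupMat ^ j := by
  induction j with
  | zero => simp
  | succ j ih =>
    rw [pow_succ', ← Matrix.mulVec_mulVec, cupMat_eq, mulCl_mulVec, ← cupMat_eq, ih,
      ← Matrix.mul_assoc, cupMat_eq, mulCl_comm, Matrix.mul_assoc]

end Pool.Agent.Helper7.DubStokes
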