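import Pool.Agent.Helper7.DubStokes.Mono

/-!
# Stokes matrix, central connection matrix and the Euler form
-/

open scoped BigOperators Topology Nat
open Finset MvPowerSeries Filter

namespace Pool.Agent.Helper7.DubStokes

open Pool.Agent.Helper18.Dub

namespace MonodromyData

variable {N : ℕ} {X : FanoGW (Fin N)} {t : Fin N → ℂ} (M : MonodromyData X t)

theorem ordered_re (i j : Fin N) (h : i < j) :
    0 < ((M.u j - M.u i) * Complex.exp (-M.φ * Complex.I)).re := by
  have := M.ordered i j h
  rw [sub_mul, Complex.sub_re]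
  linarith

/-- `(X_+(e^{-πi} z), X_-(z)) = 1`. -/
theorem pairing_plus_minus (w : ℂ) :
    (M.Xplus (w - Real.pi * Complex.I)).transpose * X.pair * M.Xminus w = 1 := by
  have hε := M.ε_pos
  have hπ := Real.pi_pos
  have hlim : ∀ α : ℝ, M.φ - M.ε < α → α < M.φ + Real.pi + M.ε → α - Real.pi < M.φ + M.ε →
      M.φ - Real.pi - M.ε < α - Real.pi → ∀ K : Matrix (Fin N) (Fin N) ℂ,
      (∀ w, (M.Xplus (w - Real.pi * Complex.I)).transpose * X.pair * M.Xminus w = K) →
      (∀ i, K i i = 1) ∧ ∀ i j, i ≠ j →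
        0 ≤ ((M.u i - M.u j) * Complex.exp (-α * Complex.I)).re → K i j = 0 := by
    intro α h1 h2 h3 h4 K hK
    refine pairing_limit X M.u M.Ψ M.normalised M.Xplus M.Xminus K α (fun s => ?_) ?_ ?_
    · rw [← hK (s + α * Complex.I)]
      congr 4
      push_cast
      ring
    · exact M.plus_asymptotics (α - Real.pi) ⟨h4, h3⟩
    · exact M.minus_asymptotics α ⟨h1, h2⟩
  have hK : ∀ w', (M.Xplus (w' - Real.pi * Complex.I)).transpose * X.pair * M.Xminus w' =
      (M.Xplus (w - Real.pi * Complex.I)).transpose * X.pair * M.Xminus w := fun w' =>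
    pairing_const X t M.Xplus M.Xminus M.plus_solution M.minus_solution w' w
  set K := (M.Xplus (w - Real.pi * Complex.I)).transpose * X.pair * M.Xminus w with hKdef
  obtain ⟨hd, h0⟩ := hlim M.φ (by linarith) (by linarith) (by linarith) (by linarith) K hK
  obtain ⟨-, h1⟩ := hlim (M.φ + Real.pi) (by linarith) (by linarith) (by linarith) (by linarith) K
    hK
  ext i j
  rcases lt_trichotomy i j with h | h | h
  · rw [Matrix.one_apply_ne h.ne]
    apply h1 i j h.ne
    have h2 : Complex.exp (-((M.φ + Real.pi : ℝ) : ℂ) * Complex.I) =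
        -Complex.exp (-M.φ * Complex.I) := by
      rw [show -((M.φ + Real.pi : ℝ) : ℂ) * Complex.I = -M.φ * Complex.I +
        -(Real.pi * Complex.I) by push_cast; ring, Complex.exp_add, Complex.exp_neg
        (Real.pi * Complex.I), Complex.exp_pi_mul_I]
      norm_num
    rw [h2, mul_neg, ← neg_mul, neg_sub]
    exact (M.ordered_re i j h).le
  · rw [h, hd, Matrix.one_apply_eq]
  · rw [Matrix.one_apply_ne h.ne']
    exact h0 i j h.ne' (M.ordered_re j i h).le

/-- `S = (X_-(e^{πi} z), X_-(z))`. -/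
theorem pairing_minus_minus (w : ℂ) :
    (M.Xminus (w + Real.pi * Complex.I)).transpose * X.pair * M.Xminus w = M.S := by
  have h1 := M.pairing_plus_minus (w + Real.pi * Complex.I)
  rw [add_sub_cancel_right] at h1
  have h2 := congrArg Matrix.transpose h1
  rw [Matrix.transpose_mul, Matrix.transpose_mul, Matrix.transpose_transpose, X.pair_isSymm,
    Matrix.transpose_one, ← Matrix.mul_assoc] at h2
  rw [M.stokes w, ← Matrix.mul_assoc, h2, Matrix.one_mul]

theorem S_entries : (∀ i, M.S i i = 1) ∧ ∀ i j, j < i → M.S i j = 0 := by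
  have hε := M.ε_pos
  have hπ := Real.pi_pos
  have h := pairing_limit X M.u M.Ψ M.normalised (fun w => M.Xminus (w + 2 * Real.pi * Complex.I))
    M.Xminus M.S M.φ (fun s => ?_) ?_ ?_
  · exact ⟨h.1, fun i j hij => h.2 i j hij.ne' (M.ordered_re j i hij).le⟩
  · rw [← M.pairing_minus_minus (s + M.φ * Complex.I)]
    congr 4
    push_cast
    ring
  · have h1 := M.minus_asymptotics (M.φ + Real.pi) ⟨by linarith, by linarith⟩
    refine h1.congr fun s => ?_
    show _ = M.Xminus _ * _
    have e1 : ((s : ℂ) + ((M.φ - Real.pi : ℝ) : ℂ) * Complex.I) + 2 * Real.pi * Complex.I =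
        (s : ℂ) + ((M.φ + Real.pi : ℝ) : ℂ) * Complex.I := by
      push_cast; ring
    have e2 : Complex.exp (-((s : ℂ) + ((M.φ + Real.pi : ℝ) : ℂ) * Complex.I)) =
        Complex.exp (-((s : ℂ) + ((M.φ - Real.pi : ℝ) : ℂ) * Complex.I)) := by
      rw [← e1, neg_add, Complex.exp_add, Complex.exp_neg (2 * Real.pi * Complex.I),
        Complex.exp_two_pi_mul_I, inv_one, mul_one]
    rw [e1, e2]
  · exact M.minus_asymptotics M.φ ⟨by linarith, by linarith⟩

theorem isUnit_of_unitriangular (G : Matrix (Fin N) (Fin N) ℂ)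
    (hG1 : ∀ i, G i i = 1) (hG : ∀ i j, j < i → G i j = 0) : IsUnit G.det := by
  rw [Matrix.det_of_isUpperTriangular (fun i j hij => hG i j hij)]
  simp [hG1]

theorem S_isUnit : IsUnit M.S.det :=
  isUnit_of_unitriangular M.S M.S_entries.1 M.S_entries.2

theorem Xminus_add (w : ℂ) :
    M.Xminus (w + 2 * Real.pi * Complex.I) = M.Xminus w * (M.S⁻¹ * M.S.transpose) := by
  have h1 := M.pairing_minus_minus (w + Real.pi * Complex.I)
  have h2 := M.pairing_minus_minus w
  rw [show w + Real.pi * Complex.I + Real.pi * Complex.I = w + 2 * Real.pi * Complex.I by ring]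
    at h1
  have h1' := congrArg Matrix.transpose h1
  rw [Matrix.transpose_mul, Matrix.transpose_mul, Matrix.transpose_transpose, X.pair_isSymm,
    ← Matrix.mul_assoc] at h1'
  set Y := (M.Xminus (w + Real.pi * Complex.I)).transpose * X.pair with hY
  have h3 : Y * (M.Xminus w * M.S⁻¹) = 1 := by
    rw [← Matrix.mul_assoc, h2, Matrix.mul_nonsing_inv _ M.S_isUnit]
  have h4 : M.Xminus w * M.S⁻¹ * Y = 1 := mul_eq_one_comm.1 h3
  calc M.Xminus (w + 2 * Real.pi * Complex.I)
      = M.Xminus w * M.S⁻¹ * Y * M.Xminus (w + 2 * Real.pi * Complex.I) := by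
        rw [h4, Matrix.one_mul]
    _ = M.Xminus w * (M.S⁻¹ * M.S.transpose) := by
        rw [Matrix.mul_assoc, h1']
        simp only [Matrix.mul_assoc]

theorem isUnit_Xminus (w : ℂ) : IsUnit (M.Xminus w) := by
  rw [Matrix.isUnit_iff_isUnit_det]
  have h2 := M.pairing_minus_minus w
  have h3 := congrArg Matrix.det h2
  rw [Matrix.det_mul] at h3
  have h4 := M.S_isUnit
  rw [← h3] at h4
  exact isUnit_of_mul_isUnit_right h4

theorem C_isUnit : IsUnit M.C := by
  have h := M.isUnit_Xminus 0
  rw [Matrix.isUnit_iff_isUnit_det] at h ⊢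
  rw [M.central 0, Matrix.det_mul] at h
  exact isUnit_of_mul_isUnit_right h

theorem zSol_isUnit (w : ℂ) : IsUnit (zSol X M.𝒮 w) := by
  have h := M.isUnit_Xminus w
  rw [Matrix.isUnit_iff_isUnit_det] at h ⊢
  rw [M.central w, Matrix.det_mul] at h
  exact isUnit_of_mul_isUnit_left h

/-- The monodromy of quantum cohomology at `z = ∞` and at `z = 0`. -/
theorem monodromy : M.C * (M.S⁻¹ * M.S.transpose) =
    ((-1 : ℂ) ^ X.dim) • (NormedSpace.exp ((-(2 * Real.pi * Complex.I)) • X.cupMat) * M.C) := by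
  have h1 := M.Xminus_add 0
  rw [M.central, M.central, zSol_add, Matrix.smul_mul, Matrix.mul_assoc, Matrix.mul_assoc,
    ← Matrix.mul_smul] at h1
  exact ((M.zSol_isUnit 0).mul_left_cancel h1).symm

end MonodromyData

/-- The Serre functor on the derived side. -/
theorem serre {N : ℕ} (X : FanoGW (Fin N)) (T : Fin N → ℂ) (hT : IsToddLike X T)
    (V G : Matrix (Fin N) (Fin N) ℂ) (hG : IsUnit G.det)
    (hGV : ∀ i j, G i j = eulerForm X T (fun a => V a i) (fun a => V a j)) :
    IsUnit V ∧ V * (G⁻¹ * G.transpose) =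
      ((-1 : ℂ) ^ X.dim) • (NormedSpace.exp (-X.cupMat) * V) := by
  have h1 : G = V.transpose * gram X T * V := by
    ext i j
    rw [hGV, eulerForm_cols]
  have hV : IsUnit V := by
    rw [Matrix.isUnit_iff_isUnit_det]
    rw [h1, Matrix.det_mul] at hG
    exact isUnit_of_mul_isUnit_right hG
  refine ⟨hV, ?_⟩
  have hW : IsUnit (V.transpose * gram X T) := by
    rw [Matrix.isUnit_iff_isUnit_det]
    rw [h1, Matrix.det_mul] at hG
    exact isUnit_of_mul_isUnit_left hG
  apply hW.mul_left_cancel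
  have h2 : V.transpose * gram X T * (V * (G⁻¹ * G.transpose)) = G.transpose := by
    rw [← Matrix.mul_assoc, ← h1, ← Matrix.mul_assoc, Matrix.mul_nonsing_inv _ hG, Matrix.one_mul]
  rw [h2]
  conv_lhs => rw [h1, Matrix.transpose_mul, Matrix.transpose_mul, Matrix.transpose_transpose,
    gram_transpose X T hT]
  simp only [Matrix.mul_smul, Matrix.smul_mul, Matrix.mul_assoc]

end Pool.Agent.Helper7.DubStokes
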