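import Pool.Agent.Helper7.DubStokes.Class

/-!
# The Euler form: `B^T = (-1)^D B exp(-c_1)`
-/

open scoped BigOperators Topology Nat
open Finset MvPowerSeries Filter

namespace Pool.Agent.Helper7.DubStokes

open Pool.Agent.Helper18.Dub

variable {ι : Type} [Fintype ι] [DecidableEq ι] (X : FanoGW ι)

theorem cupMat_pow_deg (j : ℕ) (k b : ι) (h : (X.cupMat ^ j) k b ≠ 0) :
    X.deg k = X.deg b + j := by
  induction j generalizing k with
  | zero =>
    rw [pow_zero, Matrix.one_apply] at h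
    by_cases hkb : k = b
    · rw [hkb]; rfl
    · rw [if_neg hkb] at h; exact absurd rfl h
  | succ j ih =>
    rw [pow_succ', Matrix.mul_apply] at h
    obtain ⟨l, -, hl⟩ := Finset.exists_ne_zero_of_sum_ne_zero h
    have h1 := X.cupMat_deg k l (left_ne_zero_of_mul hl)
    have h2 := ih l (right_ne_zero_of_mul hl)
    omega

/-- a bound for the nilpotency order -/
noncomputable def nil : ℕ := (∑ k, X.deg k) + 1

theorem cupMat_pow_nil : X.cupMat ^ nil X = 0 := by
  ext k b
  by_contra hne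
  have h1 := cupMat_pow_deg X _ k b hne
  have h2 : X.deg k ≤ ∑ k, X.deg k := Finset.single_le_sum (fun _ _ => Nat.zero_le _)
    (Finset.mem_univ k)
  unfold nil at h1
  omega

theorem smul_cupMat_pow_nil (c : ℂ) : (c • X.cupMat) ^ nil X = 0 :=
  smul_pow_zero _ _ (cupMat_pow_nil X) c

theorem neg_cupMat : -X.cupMat = (-1 : ℂ) • X.cupMat := by rw [neg_one_smul]

theorem mulCl_exp (v : ι → ℂ) (c : ℂ) :
    mulCl X ((NormedSpace.exp (c • X.cupMat)).mulVec v) =
      mulCl X v * NormedSpace.exp (c • X.cupMat) := by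
  rw [exp_of_pow_eq_zero _ _ (smul_cupMat_pow_nil X c)]
  have h1 : (∑ j ∈ range (nil X), ((j ! : ℂ)⁻¹) • (c • X.cupMat) ^ j).mulVec v =
      ∑ j ∈ range (nil X), ((j ! : ℂ)⁻¹ * c ^ j) • (X.cupMat ^ j).mulVec v := by
    rw [Matrix.sum_mulVec]
    refine Finset.sum_congr rfl fun j _ => ?_
    rw [smul_pow, smul_smul, Matrix.smul_mulVec]
  rw [h1]
  have h2 := map_sum (mulClHom X) (fun j => ((j ! : ℂ)⁻¹ * c ^ j) • (X.cupMat ^ j).mulVec v)
    (range (nil X))
  have h3 : ∀ v, mulClHom X v = mulCl X v := fun _ => rfl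
  rw [← h3, h2, Finset.mul_sum]
  refine Finset.sum_congr rfl fun j _ => ?_
  rw [map_smul, h3, mulCl_pow_mulVec, smul_pow, smul_smul, Matrix.mul_smul]

/-- the signs `(-1)^deg` -/
noncomputable def sgn : Matrix ι ι ℂ := Matrix.diagonal fun a => (-1) ^ X.deg a

/-- the Gram matrix of the Euler form in the basis `φ_i` -/
noncomputable def gram (T : ι → ℂ) : Matrix ι ι ℂ := sgn X * triMat X T

theorem eulerForm_eq (T v w : ι → ℂ) :
    eulerForm X T v w = ∑ a, ∑ b, v a * gram X T a b * w b := by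
  unfold eulerForm
  refine Finset.sum_congr rfl fun a _ => Finset.sum_congr rfl fun b _ => ?_
  rw [gram, sgn, Matrix.diagonal_mul]
  simp only [triMat, Matrix.of_apply, Finset.mul_sum, Finset.sum_mul]
  refine Finset.sum_congr rfl fun c _ => ?_
  show _ = _
  rw [show X.inv X.zero {a, b, c} = tri X a b c from rfl]
  ring

theorem eulerForm_cols (T : ι → ℂ) (V : Matrix ι ι ℂ) (i j : ι) :
    eulerForm X T (fun a => V a i) (fun b => V b j) = (V.transpose * gram X T * V) i j := by
  rw [eulerForm_eq, Matrix.mul_apply]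
  simp only [Matrix.mul_apply, Matrix.transpose_apply, Finset.sum_mul]
  rw [Finset.sum_comm]

theorem triMat_sgn (T : ι → ℂ) :
    triMat X T * sgn X = ((-1 : ℂ) ^ X.dim) • (sgn X * triMat X (fun c => (-1) ^ X.deg c * T c)) := by
  ext a b
  rw [sgn, Matrix.mul_diagonal, Matrix.smul_apply, Matrix.diagonal_mul]
  simp only [triMat, Matrix.of_apply, Finset.mul_sum, Finset.sum_mul, smul_eq_mul]
  refine Finset.sum_congr rfl fun c _ => ?_
  by_cases h : tri X a b c = 0
  · rw [h]; ring
  have h1 := tri_deg X a b c h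
  have h2 : ((-1 : ℂ)) ^ X.dim = (-1) ^ X.deg a * (-1) ^ X.deg b * (-1) ^ X.deg c := by
    rw [← h1, pow_add, pow_add]
  have h3 : ((-1 : ℂ) ^ X.deg a) * (-1) ^ X.deg a = 1 := by
    rw [← mul_pow]; simp
  have h4 : ((-1 : ℂ) ^ X.deg c) * (-1) ^ X.deg c = 1 := by
    rw [← mul_pow]; simp
  rw [h2]
  linear_combination (-(T c * tri X a b c * (-1) ^ X.deg b * ((-1) ^ X.deg c * (-1) ^ X.deg c))) * h3
    - (T c * tri X a b c * (-1) ^ X.deg b) * h4

theorem gram_transpose (T : ι → ℂ) (hT : IsToddLike X T) :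
    (gram X T).transpose = ((-1 : ℂ) ^ X.dim) • (gram X T * NormedSpace.exp (-X.cupMat)) := by
  rw [gram, Matrix.transpose_mul, triMat_transpose,
    show (sgn X).transpose = sgn X from Matrix.diagonal_transpose _, triMat_sgn]
  congr 1
  rw [Matrix.mul_assoc]
  congr 1
  rw [hT, neg_cupMat, ← pair_mulCl, mulCl_exp, ← Matrix.mul_assoc, pair_mulCl]

theorem theta_comm_exp : NormedSpace.exp ((2 * Real.pi * Complex.I) • theta X) =
    ((-1 : ℂ) ^ X.dim) • (1 : Matrix ι ι ℂ) := by
  have h0 : (2 * Real.pi * Complex.I) • theta X =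
      Matrix.diagonal (fun a => (2 * Real.pi * Complex.I) * ((X.dim : ℂ) / 2 - X.deg a)) := by
    ext a b
    by_cases h : a = b
    · subst h; simp [theta]
    · simp [theta, Matrix.diagonal_apply_ne _ h]
  rw [h0, Matrix.exp_diagonal]
  ext a b
  by_cases h : a = b
  · subst h
    rw [Matrix.diagonal_apply_eq, Pi.coe_exp, Matrix.smul_apply, Matrix.one_apply_eq, smul_eq_mul,
      mul_one, ← Complex.exp_eq_exp_ℂ]
    have h1 : (2 * Real.pi * Complex.I) * ((X.dim : ℂ) / 2 - X.deg a) =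
        (X.dim : ℕ) * (Real.pi * Complex.I) - ((X.deg a : ℕ) : ℂ) * (2 * Real.pi * Complex.I) := by
      ring
    rw [h1, Complex.exp_sub, Complex.exp_nat_mul, Complex.exp_nat_mul, Complex.exp_pi_mul_I,
      Complex.exp_two_pi_mul_I, one_pow, div_one]
  · rw [Matrix.diagonal_apply_ne _ h, Matrix.smul_apply, Matrix.one_apply_ne h, smul_zero]

theorem twist_cupMat : twist X * X.cupMat = (2 * Real.pi * Complex.I) • (X.cupMat * twist X) := by
  ext k b
  rw [twist, Matrix.diagonal_mul, Matrix.smul_apply, Matrix.mul_diagonal, smul_eq_mul]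
  by_cases h : X.cupMat k b = 0
  · rw [h]; ring
  · rw [X.cupMat_deg k b h, pow_succ]; ring

theorem isUnit_twist : IsUnit (twist X) := by
  rw [Matrix.isUnit_iff_isUnit_det, twist, Matrix.det_diagonal, isUnit_iff_ne_zero,
    Finset.prod_ne_zero_iff]
  intro a _
  exact pow_ne_zero _ Complex.two_pi_I_ne_zero

theorem cupMat_one (k : ι) : X.cupMat k X.one = X.chern k := by
  rw [X.cupMat_apply]
  have h : ∀ a, ∑ l, X.pair⁻¹ k l * X.inv X.zero {a, X.one, l} = if k = a then 1 else 0 := by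
    intro a
    have h1 : ∀ l, X.inv X.zero {a, X.one, l} = X.pair l a := by
      intro l
      have : ({a, X.one, l} : Multiset ι) = {X.one, a, l} := Multiset.cons_swap a X.one _
      rw [this, X.unit_zero, X.pair_symm]
    simp only [h1]
    rw [← Matrix.mul_apply, X.inv_mul_pair, Matrix.one_apply]
  simp only [h]
  simp

end Pool.Agent.Helper7.DubStokes
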