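import Pool.Agent.Helper7.DubStokes.Data

/-!
# Conditions (a) and (b) of Dubrovin's conjecture are equivalent
-/

open scoped BigOperators Topology Nat
open Finset MvPowerSeries Filter

namespace Pool.Agent.Helper7.DubStokes

open Pool.Agent.Helper18.Dub

variable {N : ℕ} {X : FanoGW (Fin N)} {t : Fin N → ℂ}

theorem exp_intertwine (C₁ : Matrix (Fin N) (Fin N) ℂ)
    (h : C₁ * X.cupMat = (2 * Real.pi * Complex.I) • (X.cupMat * C₁)) :
    C₁ * NormedSpace.exp (-X.cupMat) =
      NormedSpace.exp ((-(2 * Real.pi * Complex.I)) • X.cupMat) * C₁ := by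
  have h1 : ∀ j : ℕ, C₁ * X.cupMat ^ j = (2 * Real.pi * Complex.I) ^ j • (X.cupMat ^ j * C₁) := by
    intro j
    induction j with
    | zero => simp
    | succ j ih =>
      rw [pow_succ, ← Matrix.mul_assoc, ih, Matrix.smul_mul, Matrix.mul_assoc, h, Matrix.mul_smul,
        smul_smul, ← pow_succ, ← Matrix.mul_assoc]
  rw [neg_cupMat, exp_of_pow_eq_zero _ _ (smul_cupMat_pow_nil X (-1)),
    exp_of_pow_eq_zero _ _ (smul_cupMat_pow_nil X (-(2 * Real.pi * Complex.I))), Finset.mul_sum,
    Finset.sum_mul]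
  refine Finset.sum_congr rfl fun j _ => ?_
  rw [smul_pow, smul_pow, Matrix.mul_smul, Matrix.mul_smul, h1, Matrix.smul_mul, Matrix.smul_mul,
    smul_smul ((-1 : ℂ) ^ j), ← mul_pow, neg_one_mul]

/-- the twisted and the untwisted forms of condition (b) -/
theorem twisted_iff (C V : Matrix (Fin N) (Fin N) ℂ) (hV : IsUnit V) :
    (∃ C' : Matrix (Fin N) (Fin N) ℂ, C = C' * (twist X * V) ∧
      C' * X.cupMat = X.cupMat * C') ↔
    (C * V⁻¹) * X.cupMat = (2 * Real.pi * Complex.I) • (X.cupMat * (C * V⁻¹)) := by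
  have hVd : IsUnit V.det := (Matrix.isUnit_iff_isUnit_det _).1 hV
  have htd : IsUnit (twist X).det := (Matrix.isUnit_iff_isUnit_det _).1 (isUnit_twist X)
  constructor
  · rintro ⟨C', rfl, hC'⟩
    have h1 : C' * (twist X * V) * V⁻¹ = C' * twist X := by
      rw [Matrix.mul_assoc, Matrix.mul_assoc, Matrix.mul_nonsing_inv _ hVd, Matrix.mul_one]
    rw [h1, Matrix.mul_assoc, twist_cupMat, Matrix.mul_smul, ← Matrix.mul_assoc, hC',
      Matrix.mul_assoc]
  · intro h
    refine ⟨C * V⁻¹ * (twist X)⁻¹, ?_, ?_⟩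
    · rw [← Matrix.mul_assoc, Matrix.mul_assoc (C * V⁻¹), Matrix.nonsing_inv_mul _ htd,
        Matrix.mul_one, Matrix.mul_assoc, Matrix.nonsing_inv_mul _ hVd, Matrix.mul_one]
    · apply (isUnit_twist X).mul_right_cancel
      rw [Matrix.mul_assoc X.cupMat, Matrix.mul_assoc (C * V⁻¹) _ (twist X),
        Matrix.nonsing_inv_mul _ htd, Matrix.mul_one]
      have h2 : X.cupMat * twist X = (2 * Real.pi * Complex.I)⁻¹ • (twist X * X.cupMat) := by
        rw [twist_cupMat, smul_smul, inv_mul_cancel₀ Complex.two_pi_I_ne_zero, one_smul]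
      rw [Matrix.mul_assoc (C * V⁻¹ * (twist X)⁻¹), h2, Matrix.mul_smul,
        Matrix.mul_assoc (C * V⁻¹), ← Matrix.mul_assoc (twist X)⁻¹, Matrix.nonsing_inv_mul _ htd,
        Matrix.one_mul, h, smul_smul, inv_mul_cancel₀ Complex.two_pi_I_ne_zero, one_smul]

theorem tfae (M : MonodromyData X t) (T : Fin N → ℂ) (hT : IsToddLike X T)
    (V G : Matrix (Fin N) (Fin N) ℂ)
    (hGV : ∀ i j, G i j = eulerForm X T (fun a => V a i) (fun a => V a j))
    (hG1 : ∀ i, G i i = 1) (hG : ∀ i j, j < i → G i j = 0) :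
    [M.S = G,
      ∃ C' : Matrix (Fin N) (Fin N) ℂ, M.C = C' * (twist X * V) ∧
        C' * X.cupMat = X.cupMat * C',
      M.S⁻¹ * M.S.transpose = G⁻¹ * G.transpose].TFAE := by
  have hGd := MonodromyData.isUnit_of_unitriangular G hG1 hG
  obtain ⟨hV, hVG⟩ := serre X T hT V G hGd hGV
  have hVd : IsUnit V.det := (Matrix.isUnit_iff_isUnit_det _).1 hV
  have hmon := M.monodromy
  have hsign : ((-1 : ℂ) ^ X.dim) ≠ 0 := pow_ne_zero _ (by norm_num)
  set C₁ := M.C * V⁻¹ with hC₁
  have hC : C₁ * V = M.C := by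
    rw [hC₁, Matrix.mul_assoc, Matrix.nonsing_inv_mul _ hVd, Matrix.mul_one]
  tfae_have 1 → 3 := fun h => by rw [h]
  tfae_have 3 → 1 := fun h =>
    eq_of_unitriangular M.S G M.S_entries.1 M.S_entries.2 hG1 hG h
  tfae_have 3 → 2 := by
    intro h
    rw [twisted_iff M.C V hV]
    rw [h, ← hC, Matrix.mul_assoc, hVG, Matrix.mul_smul] at hmon
    have h1 := smul_right_injective _ hsign hmon
    have h2 : C₁ * NormedSpace.exp (-X.cupMat) =
        NormedSpace.exp ((-(2 * Real.pi * Complex.I)) • X.cupMat) * C₁ := by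
      apply hV.mul_right_cancel
      simpa only [Matrix.mul_assoc] using h1
    have h3 := intertwine_of_exp _ _ C₁ (nil X)
      (smul_cupMat_pow_nil X (-(2 * Real.pi * Complex.I)))
      (by rw [neg_cupMat]; exact smul_cupMat_pow_nil X (-1)) h2.symm
    rw [Matrix.smul_mul, Matrix.mul_neg, neg_smul, neg_inj] at h3
    exact h3.symm
  tfae_have 2 → 3 := by
    intro h
    rw [twisted_iff M.C V hV] at h
    have h2 := exp_intertwine C₁ h
    apply M.C_isUnit.mul_left_cancel
    calc M.C * (M.S⁻¹ * M.S.transpose)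
        = ((-1 : ℂ) ^ X.dim) •
          (NormedSpace.exp ((-(2 * Real.pi * Complex.I)) • X.cupMat) * (C₁ * V)) := by
          rw [hmon, hC]
      _ = ((-1 : ℂ) ^ X.dim) • (C₁ * (NormedSpace.exp (-X.cupMat) * V)) := by
          rw [← Matrix.mul_assoc, ← h2, Matrix.mul_assoc]
      _ = C₁ * (V * (G⁻¹ * G.transpose)) := by
          rw [hVG, Matrix.mul_smul]
      _ = M.C * (G⁻¹ * G.transpose) := by
          rw [← Matrix.mul_assoc, hC]
  tfae_finish

/-- With the untwisted Chern characters, (a) and (b) contradict each other. -/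
theorem untwisted_false (M : MonodromyData X t) (T : Fin N → ℂ) (hT : IsToddLike X T)
    (V G : Matrix (Fin N) (Fin N) ℂ)
    (hGV : ∀ i j, G i j = eulerForm X T (fun a => V a i) (fun a => V a j))
    (hG1 : ∀ i, G i i = 1) (hG : ∀ i j, j < i → G i j = 0) (hc : X.chern ≠ 0)
    (hS : M.S = G) (C' : Matrix (Fin N) (Fin N) ℂ) (hC' : M.C = C' * V) :
    C' * X.cupMat ≠ X.cupMat * C' := by
  intro hcomm
  have hGd := MonodromyData.isUnit_of_unitriangular G hG1 hG
  obtain ⟨hV, -⟩ := serre X T hT V G hGd hGV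
  have hVd : IsUnit V.det := (Matrix.isUnit_iff_isUnit_det _).1 hV
  have h1 := ((tfae M T hT V G hGV hG1 hG).out 0 1).1 hS
  rw [twisted_iff M.C V hV] at h1
  have h2 : M.C * V⁻¹ = C' := by
    rw [hC', Matrix.mul_assoc, Matrix.mul_nonsing_inv _ hVd, Matrix.mul_one]
  rw [h2, hcomm] at h1
  have h3 : ((2 * Real.pi * Complex.I) - 1) • (X.cupMat * C') = 0 := by
    rw [sub_smul, one_smul, ← h1, sub_self]
  have h4 : (2 * Real.pi * Complex.I : ℂ) - 1 ≠ 0 := by
    intro h
    have := congrArg Complex.re h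
    simp at this
  have h5 := (smul_eq_zero.1 h3).resolve_left h4
  have hC'u : IsUnit C' := by
    have h6 := M.C_isUnit
    rw [Matrix.isUnit_iff_isUnit_det] at h6 ⊢
    rw [hC', Matrix.det_mul] at h6
    exact isUnit_of_mul_isUnit_left h6
  have h7 : X.cupMat = 0 := by
    apply hC'u.mul_right_cancel
    rw [h5, Matrix.zero_mul]
  apply hc
  funext k
  rw [← cupMat_one, h7]
  rfl

theorem dotProduct_mulVec_mulVec (P Q : Matrix (Fin N) (Fin N) ℂ) (x y : Fin N → ℂ) :
    dotProduct (P.mulVec x) (Q.mulVec y) = dotProduct x ((P.transpose * Q).mulVec y) := by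
  rw [← Matrix.vecMul_transpose, ← Matrix.dotProduct_mulVec, Matrix.mulVec_mulVec]

theorem eulerForm_dot (T x y : Fin N → ℂ) :
    eulerForm X T x y = dotProduct x ((gram X T).mulVec y) := by
  rw [eulerForm_eq]
  simp only [dotProduct, Matrix.mulVec, Finset.mul_sum, mul_assoc]

theorem flatPairing_eq (M : MonodromyData X t) (w : ℂ) (P : Matrix (Fin N) (Fin N) ℂ)
    (x y : Fin N → ℂ) : flatPairing M w (P.mulVec x) (P.mulVec y) =
    dotProduct x (((zSol X M.𝒮 (w + Real.pi * Complex.I) * P).transpose * X.pair *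
      (zSol X M.𝒮 w * P)).mulVec y) := by
  unfold flatPairing
  rw [Matrix.mulVec_mulVec, Matrix.mulVec_mulVec, Matrix.mulVec_mulVec, dotProduct_mulVec_mulVec]
  simp only [Matrix.mul_assoc]

theorem dot_ext (A B : Matrix (Fin N) (Fin N) ℂ)
    (h : ∀ x y : Fin N → ℂ, dotProduct x (A.mulVec y) = dotProduct x (B.mulVec y)) : A = B := by
  ext i j
  have := h (Pi.single i 1) (Pi.single j 1)
  simpa using this

theorem C_pairing (M : MonodromyData X t) (w : ℂ) :
    (zSol X M.𝒮 (w + Real.pi * Complex.I) * M.C).transpose * X.pair *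
      (zSol X M.𝒮 w * M.C) = M.S := by
  rw [← M.central, ← M.central]
  exact M.pairing_minus_minus w

/-- the matrix with columns `v_j` -/
noncomputable def colMat (v : Fin N → Fin N → ℂ) : Matrix (Fin N) (Fin N) ℂ :=
  Matrix.of fun a j => v j a

theorem mul_colMat (P : Matrix (Fin N) (Fin N) ℂ) (v : Fin N → Fin N → ℂ) (a j : Fin N) :
    (P * colMat v) a j = P.mulVec (v j) a := by
  simp [Matrix.mul_apply, Matrix.mulVec, dotProduct, colMat]

theorem eq_mul_colMat_iff (C P : Matrix (Fin N) (Fin N) ℂ) (v : Fin N → Fin N → ℂ) :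
    (∀ a j, C a j = P.mulVec (v j) a) ↔ C = P * colMat v := by
  constructor
  · intro h
    ext a j
    rw [mul_colMat, h]
  · intro h a j
    rw [h, mul_colMat]

theorem colMat_mulVec (Q : Matrix (Fin N) (Fin N) ℂ) (v : Fin N → Fin N → ℂ) :
    colMat (fun j => Q.mulVec (v j)) = Q * colMat v := by
  ext a j
  rw [mul_colMat]
  rfl

theorem gramMatrix_eq (T : Fin N → ℂ) (v : Fin N → Fin N → ℂ) :
    gramMatrix X T v = (colMat v).transpose * gram X T * colMat v := by
  ext i j
  rw [← eulerForm_cols]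
  rfl

theorem isometric_iff (M : MonodromyData X t) (T : Fin N → ℂ) (hT : IsToddLike X T)
    (v : Fin N → Fin N → ℂ) (hv : IsExceptional X T v) :
    M.S = gramMatrix X T v ↔ ConnectionIsometric M T v := by
  set V := colMat v with hVdef
  set G := gramMatrix X T v with hGdef
  have hGd : IsUnit G.det := MonodromyData.isUnit_of_unitriangular G hv.self hv.zero
  obtain ⟨hV, -⟩ := serre X T hT V G hGd (fun i j => rfl)
  have hVd : IsUnit V.det := (Matrix.isUnit_iff_isUnit_det _).1 hV
  have htd : IsUnit (twist X).det := (Matrix.isUnit_iff_isUnit_det _).1 (isUnit_twist X)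
  have hG : G = V.transpose * gram X T * V := gramMatrix_eq T v
  constructor
  · intro hS
    refine ⟨M.C * V⁻¹ * (twist X)⁻¹, ?_, ?_⟩
    · rw [eq_mul_colMat_iff, colMat_mulVec, ← Matrix.mul_assoc, Matrix.mul_assoc (M.C * V⁻¹),
        Matrix.nonsing_inv_mul _ htd, Matrix.mul_one, Matrix.mul_assoc, ← hVdef,
        Matrix.nonsing_inv_mul _ hVd, Matrix.mul_one]
    · intro w x y
      rw [Matrix.mul_assoc (M.C * V⁻¹), Matrix.nonsing_inv_mul _ htd, Matrix.mul_one,
        flatPairing_eq, eulerForm_dot]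
      congr 2
      have h1 := C_pairing M w
      rw [hS, hG] at h1
      have h2 : M.C * V⁻¹ * V = M.C := by
        rw [Matrix.mul_assoc, Matrix.nonsing_inv_mul _ hVd, Matrix.mul_one]
      have hVT : IsUnit V.transpose := by
        rw [Matrix.isUnit_iff_isUnit_det, Matrix.det_transpose]; exact hVd
      apply hVT.mul_left_cancel
      apply hV.mul_right_cancel
      calc V.transpose * ((zSol X M.𝒮 (w + Real.pi * Complex.I) * (M.C * V⁻¹)).transpose *
            X.pair * (zSol X M.𝒮 w * (M.C * V⁻¹))) * V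
          = (zSol X M.𝒮 (w + Real.pi * Complex.I) * (M.C * V⁻¹ * V)).transpose *
            X.pair * (zSol X M.𝒮 w * (M.C * V⁻¹ * V)) := by
            simp only [Matrix.transpose_mul, Matrix.mul_assoc]
        _ = V.transpose * gram X T * V := by
            rw [h2, h1]
  · rintro ⟨C', hC, hiso⟩
    rw [eq_mul_colMat_iff, colMat_mulVec, ← Matrix.mul_assoc, ← hVdef] at hC
    have h0 : ∀ x y, dotProduct x (((zSol X M.𝒮 (0 + Real.pi * Complex.I) *
        (C' * twist X)).transpose * X.pair * (zSol X M.𝒮 0 * (C' * twist X))).mulVec y) =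
        dotProduct x ((gram X T).mulVec y) := by
      intro x y
      have h1 := hiso 0 x y
      rw [flatPairing_eq, eulerForm_dot] at h1
      exact h1
    have h1 := dot_ext _ _ h0
    have h2 := C_pairing M 0
    rw [hC] at h2
    rw [← h2, hG]
    calc (zSol X M.𝒮 (0 + Real.pi * Complex.I) * (C' * twist X * V)).transpose *
          X.pair * (zSol X M.𝒮 0 * (C' * twist X * V))
        = V.transpose * ((zSol X M.𝒮 (0 + Real.pi * Complex.I) * (C' * twist X)).transpose *
          X.pair * (zSol X M.𝒮 0 * (C' * twist X))) * V := by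
          simp only [Matrix.transpose_mul, Matrix.mul_assoc]
      _ = V.transpose * gram X T * V := by
          rw [h1]

/-- The main theorem. -/
theorem main (M : MonodromyData X t) (T : Fin N → ℂ) (hT : IsToddLike X T)
    (v : Fin N → Fin N → ℂ) (hv : IsExceptional X T v) :
    [M.S = gramMatrix X T v,
      ConnectionFactors M (fun j => (twist X).mulVec (v j)),
      ConnectionIsometric M T v,
      ∀ w, M.Xminus (w + 2 * Real.pi * Complex.I) =
        M.Xminus w * ((gramMatrix X T v)⁻¹ * (gramMatrix X T v).transpose)].TFAE ∧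
    (X.chern ≠ 0 → M.S = gramMatrix X T v → ¬ ConnectionFactors M v) := by
  have key := tfae M T hT (colMat v) (gramMatrix X T v) (fun i j => rfl) hv.self hv.zero
  refine ⟨?_, ?_⟩
  · tfae_have 1 ↔ 3 := isometric_iff M T hT v hv
    tfae_have 1 ↔ 2 := by
      have k12 := key.out 0 1
      refine Iff.trans k12 ?_
      unfold ConnectionFactors
      constructor
      · rintro ⟨C', h1, h2⟩
        exact ⟨C', by rw [eq_mul_colMat_iff, colMat_mulVec]; exact h1, h2⟩
      · rintro ⟨C', h1, h2⟩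
        exact ⟨C', by rw [eq_mul_colMat_iff, colMat_mulVec] at h1; exact h1, h2⟩
    tfae_have 1 → 4 := by
      intro h w
      rw [← h]
      exact M.Xminus_add w
    tfae_have 4 → 1 := by
      intro h
      have k13 := key.out 0 2
      refine k13.2 ?_
      apply (M.isUnit_Xminus 0).mul_left_cancel
      rw [← M.Xminus_add, h]
    tfae_finish
  · rintro hc hS ⟨C', h1, h2⟩
    rw [eq_mul_colMat_iff] at h1
    exact untwisted_false M T hT (colMat v) (gramMatrix X T v) (fun i j => rfl) hv.self hv.zero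
      hc hS C' h1 h2

end Pool.Agent.Helper7.DubStokes
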