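import Pool.Agent.Helper7.DubStokes.Euler

/-!
# The monodromy of flat sections
-/

open scoped BigOperators Topology Nat
open Finset MvPowerSeries Filter

namespace Pool.Agent.Helper7.DubStokes

open Pool.Agent.Helper18.Dub

section generic

variable {ι : Type} [Fintype ι] [DecidableEq ι] (X : FanoGW ι)

theorem theta_skew : (theta X).transpose * X.pair + X.pair * theta X = 0 := by
  ext a b
  rw [theta, Matrix.diagonal_transpose, Matrix.add_apply, Matrix.diagonal_mul, Matrix.mul_diagonal,
    Matrix.zero_apply]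
  by_cases h : X.pair a b = 0
  · rw [h]; ring
  · have h1 := X.pair_deg a b h
    have h2 : (X.deg a : ℂ) + X.deg b = X.dim := by exact_mod_cast h1
    linear_combination (-X.pair a b) * h2

theorem eulerMat_eq (t : ι → ℂ) : eulerMat X t = X.pair⁻¹ * Matrix.of fun l b =>
    ∑ a, (X.chern a + (1 - X.deg a) * t a) * ∑' m, term X t {a, b, l} m := by
  ext k b
  rw [Matrix.mul_apply, eulerMat, Matrix.of_apply]
  simp only [Matrix.of_apply, Finset.mul_sum]
  rw [Finset.sum_comm]
  refine Finset.sum_congr rfl fun l _ => Finset.sum_congr rfl fun a _ => ?_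
  ring

theorem pair_eulerMat (t : ι → ℂ) :
    (eulerMat X t).transpose * X.pair = X.pair * eulerMat X t := by
  have h1 : X.pair * eulerMat X t = Matrix.of fun l b =>
      ∑ a, (X.chern a + (1 - X.deg a) * t a) * ∑' m, term X t {a, b, l} m := by
    rw [eulerMat_eq, ← Matrix.mul_assoc, X.pair_mul_inv, Matrix.one_mul]
  have h2 : (eulerMat X t).transpose * X.pair = (X.pair * eulerMat X t).transpose := by
    rw [Matrix.transpose_mul, X.pair_isSymm]
  rw [h2, h1]
  ext l b
  rw [Matrix.transpose_apply, Matrix.of_apply, Matrix.of_apply]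
  refine Finset.sum_congr rfl fun a _ => ?_
  rw [show ({a, l, b} : Multiset ι) = {a, b, l} from by
    show a ::ₘ (l ::ₘ b ::ₘ 0) = a ::ₘ (b ::ₘ l ::ₘ 0)
    rw [Multiset.cons_swap l b]]

/-- The pairing of flat sections at `-z` and `z` is constant. -/
theorem pairing_const (t : ι → ℂ) (Y W : ℂ → Matrix ι ι ℂ) (hY : IsSolution X t Y)
    (hW : IsSolution X t W) (w w' : ℂ) :
    (Y (w - Real.pi * Complex.I)).transpose * X.pair * W w =
      (Y (w' - Real.pi * Complex.I)).transpose * X.pair * W w' := by
  ext i j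
  let f : ℂ → ℂ := fun w => ∑ b, (∑ a, Y (w - Real.pi * Complex.I) a i * X.pair a b) * W w b j
  have hf : ∀ w, ((Y (w - Real.pi * Complex.I)).transpose * X.pair * W w) i j = f w := by
    intro w
    simp only [f, Matrix.mul_apply, Matrix.transpose_apply]
  rw [hf, hf]
  have hd : ∀ w, HasDerivAt f 0 w := by
    intro w
    let A : ℂ → Matrix ι ι ℂ := fun w => theta X - Complex.exp (-w) • eulerMat X t
    have hY' : ∀ a, HasDerivAt (fun w => Y (w - Real.pi * Complex.I) a i)
        ((A (w - Real.pi * Complex.I) * Y (w - Real.pi * Complex.I)) a i) w := by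
      intro a
      have := hY (w - Real.pi * Complex.I) a i
      exact this.comp_sub_const w _
    have hW' : ∀ b, HasDerivAt (fun w => W w b j) ((A w * W w) b j) w := fun b => hW w b j
    have h1 : HasDerivAt f (∑ b, ((∑ a, (A (w - Real.pi * Complex.I) *
        Y (w - Real.pi * Complex.I)) a i * X.pair a b) * W w b j +
        (∑ a, Y (w - Real.pi * Complex.I) a i * X.pair a b) * (A w * W w) b j)) w := by
      refine HasDerivAt.fun_sum fun b _ => ?_
      refine HasDerivAt.mul ?_ (hW' b)
      exact HasDerivAt.fun_sum fun a _ => (hY' a).mul_const _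
    have h2 : (∑ b, ((∑ a, (A (w - Real.pi * Complex.I) *
        Y (w - Real.pi * Complex.I)) a i * X.pair a b) * W w b j +
        (∑ a, Y (w - Real.pi * Complex.I) a i * X.pair a b) * (A w * W w) b j)) =
        ((A (w - Real.pi * Complex.I) * Y (w - Real.pi * Complex.I)).transpose * X.pair * W w +
          (Y (w - Real.pi * Complex.I)).transpose * X.pair * (A w * W w)) i j := by
      rw [Matrix.add_apply, Finset.sum_add_distrib]
      simp only [Matrix.mul_apply, Matrix.transpose_apply]
    have h3 : (A (w - Real.pi * Complex.I)).transpose * X.pair + X.pair * A w = 0 := by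
      have h4 : A (w - Real.pi * Complex.I) = theta X + Complex.exp (-w) • eulerMat X t := by
        show theta X - Complex.exp (-(w - Real.pi * Complex.I)) • eulerMat X t = _
        rw [show -(w - Real.pi * Complex.I) = -w + Real.pi * Complex.I by ring, Complex.exp_add,
          Complex.exp_pi_mul_I, mul_neg_one, neg_smul, sub_neg_eq_add]
      rw [h4]
      show _ + X.pair * (theta X - Complex.exp (-w) • eulerMat X t) = 0
      rw [Matrix.transpose_add, Matrix.transpose_smul, Matrix.add_mul, Matrix.smul_mul,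
        pair_eulerMat, Matrix.mul_sub, Matrix.mul_smul]
      rw [← theta_skew X]
      abel
    rw [h2] at h1
    have h5 : (A (w - Real.pi * Complex.I) * Y (w - Real.pi * Complex.I)).transpose * X.pair * W w +
        (Y (w - Real.pi * Complex.I)).transpose * X.pair * (A w * W w) = 0 := by
      have : (A (w - Real.pi * Complex.I) * Y (w - Real.pi * Complex.I)).transpose * X.pair * W w +
        (Y (w - Real.pi * Complex.I)).transpose * X.pair * (A w * W w) =
        (Y (w - Real.pi * Complex.I)).transpose *
          ((A (w - Real.pi * Complex.I)).transpose * X.pair + X.pair * A w) * W w := by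
        rw [Matrix.transpose_mul]
        simp only [Matrix.mul_add, Matrix.add_mul, Matrix.mul_assoc]
      rw [this, h3, Matrix.mul_zero, Matrix.zero_mul]
    rw [h5] at h1
    exact h1
  exact is_const_of_deriv_eq_zero (fun w => (hd w).differentiableAt) (fun w => (hd w).deriv) w w'

/-- Constants with exponential factors. -/
theorem const_entries (K : Matrix ι ι ℂ) (u : ι → ℂ) (α : ℝ)
    (h : Tendsto (fun s : ℝ => Matrix.diagonal (fun i => Complex.exp (u i *
      Complex.exp (-(s + α * Complex.I)))) * K * Matrix.diagonal (fun j => Complex.exp (-u j *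
      Complex.exp (-(s + α * Complex.I))))) atBot (𝓝 1)) :
    (∀ i, K i i = 1) ∧ ∀ i j, i ≠ j → 0 ≤ ((u i - u j) * Complex.exp (-α * Complex.I)).re →
      K i j = 0 := by
  have h1 : ∀ i j, Tendsto (fun s : ℝ => K i j * Complex.exp ((u i - u j) *
      Complex.exp (-(s + α * Complex.I)))) atBot (𝓝 ((1 : Matrix ι ι ℂ) i j)) := by
    intro i j
    have h2 := (continuous_apply_apply i j).continuousAt.tendsto.comp h
    refine h2.congr fun s => ?_
    show (Matrix.diagonal _ * K * Matrix.diagonal _ : Matrix ι ι ℂ) i j = _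
    rw [Matrix.mul_diagonal, Matrix.diagonal_mul]
    rw [show (u i - u j) * Complex.exp (-(s + α * Complex.I)) = u i *
      Complex.exp (-(s + α * Complex.I)) + (-u j) * Complex.exp (-(s + α * Complex.I)) by ring,
      Complex.exp_add]
    ring
  refine ⟨fun i => ?_, fun i j hij hre => ?_⟩
  · have h2 := h1 i i
    simp only [sub_self, zero_mul, Complex.exp_zero, mul_one, Matrix.one_apply_eq] at h2
    exact tendsto_nhds_unique tendsto_const_nhds h2
  · have h2 := (h1 i j).norm
    rw [Matrix.one_apply_ne hij, norm_zero] at h2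
    have h3 : ∀ s : ℝ, ‖K i j‖ ≤ ‖K i j * Complex.exp ((u i - u j) *
        Complex.exp (-(s + α * Complex.I)))‖ := by
      intro s
      rw [norm_mul, Complex.norm_exp]
      have h4 : ((u i - u j) * Complex.exp (-(s + α * Complex.I))).re =
          Real.exp (-s) * ((u i - u j) * Complex.exp (-α * Complex.I)).re := by
        rw [show -(s + α * Complex.I) = ((-s : ℝ) : ℂ) + (-α * Complex.I) by push_cast; ring,
          Complex.exp_add, ← Complex.ofReal_exp, mul_left_comm, Complex.re_ofReal_mul]
      rw [h4]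
      have h5 : 1 ≤ Real.exp (Real.exp (-s) * ((u i - u j) * Complex.exp (-α * Complex.I)).re) :=
        Real.one_le_exp (mul_nonneg (Real.exp_pos _).le hre)
      exact le_mul_of_one_le_right (norm_nonneg _) h5
    have h6 := ge_of_tendsto' h2 h3
    exact norm_le_zero_iff.1 h6

/-- The limit of the pairing of two solutions. -/
theorem pairing_limit (u : ι → ℂ) (Ψ : Matrix ι ι ℂ)
    (hΨ : Ψ.transpose * X.pair * Ψ = 1) (Y W : ℂ → Matrix ι ι ℂ) (K : Matrix ι ι ℂ) (α : ℝ)
    (hK : ∀ s : ℝ, (Y (s + (α - Real.pi : ℝ) * Complex.I)).transpose * X.pair *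
      W (s + α * Complex.I) = K)
    (hY : Tendsto (fun s : ℝ => Y (s + (α - Real.pi : ℝ) * Complex.I) *
      Matrix.diagonal fun j => Complex.exp (-u j *
        Complex.exp (-(s + (α - Real.pi : ℝ) * Complex.I)))) atBot (𝓝 Ψ))
    (hW : Tendsto (fun s : ℝ => W (s + α * Complex.I) *
      Matrix.diagonal fun j => Complex.exp (-u j * Complex.exp (-(s + α * Complex.I))))
      atBot (𝓝 Ψ)) :
    (∀ i, K i i = 1) ∧ ∀ i j, i ≠ j → 0 ≤ ((u i - u j) * Complex.exp (-α * Complex.I)).re →
      K i j = 0 := by
  apply const_entries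
  rw [← hΨ]
  have h1 : Continuous fun M : Matrix ι ι ℂ => M.transpose := continuous_id.matrix_transpose
  have h2 := ((h1.tendsto Ψ).comp hY)
  have h3 : Tendsto (fun s : ℝ => (Y (s + (α - Real.pi : ℝ) * Complex.I) *
      Matrix.diagonal fun j => Complex.exp (-u j *
        Complex.exp (-(s + (α - Real.pi : ℝ) * Complex.I)))).transpose * X.pair *
      (W (s + α * Complex.I) *
      Matrix.diagonal fun j => Complex.exp (-u j * Complex.exp (-(s + α * Complex.I)))))
      atBot (𝓝 (Ψ.transpose * X.pair * Ψ)) :=
    (h2.mul tendsto_const_nhds).mul hW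
  refine h3.congr fun s => ?_
  rw [Matrix.transpose_mul, Matrix.diagonal_transpose]
  have h4 : Complex.exp (-(s + (α - Real.pi : ℝ) * Complex.I)) =
      -Complex.exp (-(s + α * Complex.I)) := by
    rw [show -((s : ℂ) + (α - Real.pi : ℝ) * Complex.I) = -(s + α * Complex.I) +
      Real.pi * Complex.I by push_cast; ring, Complex.exp_add, Complex.exp_pi_mul_I, mul_neg_one]
  rw [h4]
  simp only [neg_mul_neg]
  rw [← hK s]
  simp only [Matrix.mul_assoc]

/-- Monodromy of the calibrated solution. -/
theorem zSol_add (𝒮 : ℂ → Matrix ι ι ℂ) (w : ℂ) :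
    zSol X 𝒮 (w + 2 * Real.pi * Complex.I) = ((-1 : ℂ) ^ X.dim) • (zSol X 𝒮 w *
      NormedSpace.exp ((-(2 * Real.pi * Complex.I)) • X.cupMat)) := by
  unfold zSol
  rw [show Complex.exp (w + 2 * Real.pi * Complex.I) = Complex.exp w by
    rw [Complex.exp_add, Complex.exp_two_pi_mul_I, mul_one]]
  have h1 : NormedSpace.exp ((w + 2 * Real.pi * Complex.I) • theta X) =
      ((-1 : ℂ) ^ X.dim) • NormedSpace.exp (w • theta X) := by
    rw [add_smul, Matrix.exp_add_of_commute _ _ (((Commute.refl _).smul_left _).smul_right _),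
      theta_comm_exp, Matrix.mul_smul, Matrix.mul_one]
  have h2 : NormedSpace.exp (-(w + 2 * Real.pi * Complex.I) • X.cupMat) =
      NormedSpace.exp (-w • X.cupMat) *
        NormedSpace.exp ((-(2 * Real.pi * Complex.I)) • X.cupMat) := by
    rw [neg_add, add_smul,
      Matrix.exp_add_of_commute _ _ (((Commute.refl _).smul_left _).smul_right _)]
  rw [h1, h2, Matrix.mul_smul, Matrix.smul_mul]
  simp only [Matrix.mul_assoc]

end generic

/-- Uniqueness of the factorisation: if `S` and `G` are upper unitriangular and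
`S⁻¹ Sᵀ = G⁻¹ Gᵀ` then `S = G`. -/
theorem eq_of_unitriangular {N : ℕ} (S G : Matrix (Fin N) (Fin N) ℂ)
    (hS1 : ∀ i, S i i = 1) (hS : ∀ i j, j < i → S i j = 0)
    (hG1 : ∀ i, G i i = 1) (hG : ∀ i j, j < i → G i j = 0)
    (h : S⁻¹ * S.transpose = G⁻¹ * G.transpose) : S = G := by
  have tri : ∀ M : Matrix (Fin N) (Fin N) ℂ, (∀ i, M i i = 1) → (∀ i j, j < i → M i j = 0) →
      M.det = 1 := by
    intro M h1 h2
    rw [Matrix.det_of_isUpperTriangular (fun i j hij => h2 i j hij)]
    simp [h1]
  have hSd := tri S hS1 hS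
  have hGd := tri G hG1 hG
  have hSu : IsUnit S.det := by rw [hSd]; exact isUnit_one
  have hGu : IsUnit G.det := by rw [hGd]; exact isUnit_one
  have hbt : ∀ M : Matrix (Fin N) (Fin N) ℂ, (∀ i j, j < i → M i j = 0) →
      M.BlockTriangular id := fun M h2 i j hij => h2 i j hij
  -- `A = G S⁻¹` is upper triangular, and equals `Gᵀ S⁻ᵀ`, which is lower triangular
  set A := G * S⁻¹ with hA
  have hAS : A * S = G := by rw [hA, Matrix.mul_assoc, Matrix.nonsing_inv_mul _ hSu, Matrix.mul_one]
  have hAT : A * S.transpose = G.transpose := by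
    rw [hA, Matrix.mul_assoc, h, ← Matrix.mul_assoc, Matrix.mul_nonsing_inv _ hGu, Matrix.one_mul]
  have : Invertible S := Matrix.invertibleOfIsUnitDet _ hSu
  have hAup : A.BlockTriangular id := (hbt G hG).mul (Matrix.blockTriangular_inv_of_blockTriangular (hbt S hS))
  have hAT' : A = G.transpose * (S⁻¹).transpose := by
    have : S.transpose * (S⁻¹).transpose = 1 := by
      rw [← Matrix.transpose_mul, Matrix.nonsing_inv_mul _ hSu, Matrix.transpose_one]
    rw [← hAT, Matrix.mul_assoc, this, Matrix.mul_one]
  have hAlow : A.transpose.BlockTriangular id := by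
    rw [hAT', Matrix.transpose_mul, Matrix.transpose_transpose, Matrix.transpose_transpose]
    exact (Matrix.blockTriangular_inv_of_blockTriangular (hbt S hS)).mul (hbt G hG)
  have hdiag : ∀ i, A i i = 1 := by
    intro i
    have h1 := congrFun (congrFun hAS i) i
    rw [Matrix.mul_apply, Finset.sum_eq_single i] at h1
    · rw [hS1, hG1, mul_one] at h1
      exact h1
    · intro k _ hk
      rcases lt_or_gt_of_ne hk with h2 | h2
      · rw [show A i k = 0 from hAup h2, zero_mul]
      · rw [hS k i h2, mul_zero]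
    · intro h3; exact absurd (Finset.mem_univ _) h3
  have hA1 : A = 1 := by
    ext i j
    rcases lt_trichotomy i j with h1 | h1 | h1
    · rw [Matrix.one_apply_ne h1.ne]
      exact hAlow h1
    · rw [h1, hdiag, Matrix.one_apply_eq]
    · rw [Matrix.one_apply_ne h1.ne']
      exact hAup h1
  rw [← hAS, hA1, Matrix.one_mul]

end Pool.Agent.Helper7.DubStokes
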